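import Pool.Agent.Helper18.ZE.Defs

/-!
# Project ZE, pieces N0, N1, N2: the exponents and the size of the numbers `num`
-/

set_option autoImplicit false

namespace Pool.Agent.Helper44.ZE

open Finset Pool.Agent.Helper18.ZE

/-- N0: rows have `f ≤ 2 A + 2 M`. -/
theorem row_le {r Q C M : ℕ} (hQ : 0 < Q) {n : Fin (r + 1) → ℕ} (hn : ∀ i, n i ≤ Q) {v : Row r}
    (hv : IsRow r Q C M n v) : v.2 ≤ 2 * ((r + 1) * C) + 2 * M := by
  obtain ⟨_, h2⟩ := hv
  have h3 := (abs_le.mp h2).2
  unfold tq at h3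
  have h4 : -((r + 1 : ℤ) * C * Q) ≤ ∑ i, ((v.1 i : ℤ) - C) * n i := by
    have h5 : ∑ i : Fin (r + 1), (-((C : ℤ) * Q)) ≤ ∑ i, ((v.1 i : ℤ) - C) * n i := by
      refine sum_le_sum fun i _ => ?_
      have h6 : (0 : ℤ) ≤ v.1 i := Int.natCast_nonneg _
      have h7 : (0 : ℤ) ≤ n i := Int.natCast_nonneg _
      have h8 : (n i : ℤ) ≤ Q := by exact_mod_cast hn i
      have h9 : (0 : ℤ) ≤ C := Int.natCast_nonneg _
      nlinarith [mul_nonneg h6 h7, mul_le_mul_of_nonneg_left h8 h9]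
    refine le_trans (le_of_eq ?_) h5
    rw [sum_const, card_univ, Fintype.card_fin, nsmul_eq_mul]
    push_cast
    ring
  have hQ' : (0 : ℤ) < Q := by exact_mod_cast hQ
  have h10 : (Q : ℤ) * v.2 ≤ Q * (2 * ((r + 1) * C) + 2 * M) := by
    push_cast at h3
    nlinarith
  have h11 := le_of_mul_le_mul_left h10 hQ'
  exact_mod_cast h11

/-- the exponent, multiplied by `Q` -/
theorem mul_expo {a b Q K C M r : ℕ} {n : Fin (r + 1) → ℕ} (v : Row r) (p : ℕ) :
    (Q : ℤ) * expo a b Q K C M r n v p =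
      M * |kv a b p| * Q + Q * ((r + 1) * C / K + 1 : ℕ) + kv a b p * tq r Q C M n v -
        ∑ i, ((v.1 i : ℤ) - C) * ((n i * kv a b p) % Q) := by
  have h1 : ∀ i, (Q : ℤ) * (((v.1 i : ℤ) - C) * wv a b Q (n i) p) =
      ((v.1 i : ℤ) - C) * n i * kv a b p - ((v.1 i : ℤ) - C) * ((n i * kv a b p) % Q) := by
    intro i
    have h2 := Int.mul_ediv_add_emod (n i * kv a b p) Q
    unfold wv
    linear_combination ((v.1 i : ℤ) - C) * h2
  unfold expo tq
  rw [mul_sub, mul_add, mul_sum, sum_congr rfl fun i _ => h1 i, sum_sub_distrib, ← sum_mul]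
  ring

/-- the sum of the fractional parts -/
theorem abs_frac_le {a b Q K C M r : ℕ} (hQ : 0 < Q) {n : Fin (r + 1) → ℕ} {v : Row r}
    (hv : IsRow r Q C M n v) (p : ℕ) (hbox : ∀ i, box a b Q K (n i) p = box a b Q K (n 0) p) :
    |(K : ℤ) * ∑ i, ((v.1 i : ℤ) - C) * ((n i * kv a b p) % Q)| ≤ (r + 1) * C * Q := by
  obtain ⟨h1, _⟩ := hv
  have hQ' : (0 : ℤ) < Q := by exact_mod_cast hQ
  set ψ : Fin (r + 1) → ℤ := fun i => (K * ((n i * kv a b p) % Q)) % Q with hψ
  have hψ0 : ∀ i, 0 ≤ ψ i := fun i => Int.emod_nonneg _ hQ'.ne'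
  have hψ1 : ∀ i, ψ i ≤ Q := fun i => (Int.emod_lt_of_pos _ hQ').le
  have h2 : ∀ i, (K : ℤ) * ((n i * kv a b p) % Q) = Q * box a b Q K (n 0) p + ψ i := by
    intro i
    rw [← hbox i]
    exact (Int.mul_ediv_add_emod _ _).symm
  have h3 : ∑ i, ((v.1 i : ℤ) - C) = 0 := by
    rw [sum_sub_distrib, sum_const, card_univ, Fintype.card_fin, nsmul_eq_mul]
    have : ∑ i, (v.1 i : ℤ) = ((r + 1 : ℕ) : ℤ) * C := by exact_mod_cast h1
    rw [this, sub_self]
  have h4 : (K : ℤ) * ∑ i, ((v.1 i : ℤ) - C) * ((n i * kv a b p) % Q) =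
      ∑ i, ((v.1 i : ℤ) - C) * ψ i := by
    have h5 : ∀ i, (K : ℤ) * (((v.1 i : ℤ) - C) * ((n i * kv a b p) % Q)) =
        ((v.1 i : ℤ) - C) * (Q * box a b Q K (n 0) p) + ((v.1 i : ℤ) - C) * ψ i := by
      intro i
      linear_combination ((v.1 i : ℤ) - C) * h2 i
    rw [mul_sum, sum_congr rfl fun i _ => h5 i, sum_add_distrib, ← sum_mul, h3, zero_mul, zero_add]
  rw [h4, abs_le]
  constructor
  · have h6 : ∑ i : Fin (r + 1), (-((C : ℤ) * Q)) ≤ ∑ i, ((v.1 i : ℤ) - C) * ψ i := by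
      refine sum_le_sum fun i _ => ?_
      have h7 : (0 : ℤ) ≤ v.1 i := Int.natCast_nonneg _
      have h9 : (0 : ℤ) ≤ C := Int.natCast_nonneg _
      nlinarith [mul_nonneg h7 (hψ0 i), mul_le_mul_of_nonneg_left (hψ1 i) h9]
    refine le_trans (le_of_eq ?_) h6
    rw [sum_const, card_univ, Fintype.card_fin, nsmul_eq_mul]
    push_cast
    ring
  · have h6 : ∑ i, ((v.1 i : ℤ) - C) * ψ i ≤ ∑ i, (v.1 i : ℤ) * Q := by
      refine sum_le_sum fun i _ => ?_
      have h7 : (0 : ℤ) ≤ v.1 i := Int.natCast_nonneg _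
      have h9 : (0 : ℤ) ≤ C := Int.natCast_nonneg _
      nlinarith [mul_nonneg h9 (hψ0 i), mul_le_mul_of_nonneg_left (hψ1 i) h7]
    refine h6.trans (le_of_eq ?_)
    rw [← sum_mul]
    have : ∑ i, (v.1 i : ℤ) = ((r + 1 : ℕ) : ℤ) * C := by exact_mod_cast h1
    rw [this]
    push_cast
    ring

/-- N1: the exponents are not negative. -/
theorem expo_nonneg {a b Q K C M r : ℕ} (hQ : 0 < Q) (hK : 0 < K) {n : Fin (r + 1) → ℕ} {v : Row r}
    (hv : IsRow r Q C M n v) (p : ℕ) (hbox : ∀ i, box a b Q K (n i) p = box a b Q K (n 0) p) :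
    0 ≤ expo a b Q K C M r n v p := by
  have h1 := mul_expo (a := a) (b := b) (Q := Q) (K := K) (C := C) (M := M) (n := n) v p
  have h2 := (abs_le.mp (abs_frac_le (K := K) hQ hv p hbox)).2
  obtain ⟨_, h3⟩ := hv
  have hQ' : (0 : ℤ) < Q := by exact_mod_cast hQ
  have hK' : (0 : ℤ) < K := by exact_mod_cast hK
  have h4 : -(|kv a b p| * (M * Q)) ≤ kv a b p * tq r Q C M n v := by
    have h5 : |kv a b p * tq r Q C M n v| ≤ |kv a b p| * (M * Q) := by
      rw [abs_mul]
      exact mul_le_mul_of_nonneg_left h3 (abs_nonneg _)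
    exact (abs_le.mp h5).1
  have h6 : ((r + 1 : ℤ) * C) ≤ K * ((r + 1) * C / K + 1 : ℕ) := by
    have h7 := Nat.div_add_mod ((r + 1) * C) K
    have h8 := Nat.mod_lt ((r + 1) * C) hK
    have h9 : (r + 1) * C ≤ K * ((r + 1) * C / K + 1) := by
      rw [mul_add, mul_one]
      omega
    exact_mod_cast h9
  have h10 : 0 ≤ (K : ℤ) * (Q * expo a b Q K C M r n v p) := by
    rw [h1]
    have h11 := mul_le_mul_of_nonneg_left h4 hK'.le
    have h12 := mul_le_mul_of_nonneg_right h6 hQ'.le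
    nlinarith
  have h13 : 0 ≤ (Q : ℤ) * expo a b Q K C M r n v p := by
    by_contra h
    push Not at h
    nlinarith
  by_contra h
  push Not at h
  nlinarith

/-- an upper bound for the exponents -/
theorem expo_le {a b Q K C M r : ℕ} (hQ : 0 < Q) (hK : 0 < K) {n : Fin (r + 1) → ℕ} {v : Row r}
    (hv : IsRow r Q C M n v) (p : ℕ) (hbox : ∀ i, box a b Q K (n i) p = box a b Q K (n 0) p) :
    (expo a b Q K C M r n v p : ℝ) ≤ M * |(kv a b p : ℝ)| +
      kv a b p * ((tq r Q C M n v : ℝ) / Q) + (2 * ((r + 1) * C) / K + 1) := by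
  have h1 := mul_expo (a := a) (b := b) (Q := Q) (K := K) (C := C) (M := M) (n := n) v p
  have h2 := (abs_le.mp (abs_frac_le (K := K) hQ hv p hbox)).1
  have hQ' : (0 : ℝ) < Q := by exact_mod_cast hQ
  have hK' : (0 : ℝ) < K := by exact_mod_cast hK
  set z0 : ℤ := ∑ i, ((v.1 i : ℤ) - C) * ((n i * kv a b p) % Q) with hz0
  have h3 : -((r + 1 : ℝ) * C * Q) ≤ K * (z0 : ℝ) := by exact_mod_cast h2
  have h4 : (Q : ℝ) * expo a b Q K C M r n v p =
      M * |(kv a b p : ℝ)| * Q + Q * ((r + 1) * C / K + 1 : ℕ) + kv a b p * tq r Q C M n v - z0 := by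
    have h1' := congrArg (fun z : ℤ => (z : ℝ)) h1
    simpa only [Int.cast_sub, Int.cast_add, Int.cast_mul, Int.cast_natCast, Int.cast_abs] using h1' 
  have h5 : (((r + 1) * C / K + 1 : ℕ) : ℝ) ≤ (r + 1) * C / K + 1 := by
    push_cast
    have h6 : ((((r + 1) * C / K : ℕ) : ℕ) : ℝ) ≤ (((r + 1) * C : ℕ) : ℝ) / K := Nat.cast_div_le
    push_cast at h6
    linarith
  have h7 : -(z0 : ℝ) ≤ (r + 1) * C * Q / K := by
    rw [le_div_iff₀ hK']
    linarith
  have h8 : (expo a b Q K C M r n v p : ℝ) =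
      M * |(kv a b p : ℝ)| + ((r + 1) * C / K + 1 : ℕ) + kv a b p * ((tq r Q C M n v : ℝ) / Q) -
        z0 / Q := by
    field_simp
    linarith
  rw [h8]
  have h9 : -((z0 : ℝ) / Q) ≤ (r + 1) * C / K := by
    rw [← neg_div, div_le_iff₀ hQ']
    refine h7.trans (le_of_eq ?_)
    ring
  have h10 : 2 * ((r + 1 : ℝ) * C) / K = (r + 1) * C / K + (r + 1) * C / K := by ring
  linarith

/-- `∑ v_p(n) log p = log n` over any set of primes which contains those of `n` -/
theorem sum_fact_log {n : ℕ} (hn : n ≠ 0) (S : Finset ℕ) (hS : n.primeFactors ⊆ S) :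
    ∑ p ∈ S, (n.factorization p : ℝ) * Real.log p = Real.log n := by
  have h1 : ∑ p ∈ S, (n.factorization p : ℝ) * Real.log p =
      ∑ p ∈ n.primeFactors, (n.factorization p : ℝ) * Real.log p := by
    symm
    refine sum_subset hS fun p _ hp => ?_
    have : n.factorization p = 0 := by
      rw [← Finsupp.notMem_support_iff, Nat.support_factorization]
      exact hp
    rw [this]
    simp
  rw [h1]
  have h := Nat.prod_factorization_pow_eq_self hn
  conv_rhs => rw [← h]
  unfold Finsupp.prod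
  rw [Nat.cast_prod, Real.log_prod]
  · rw [Nat.support_factorization]
    refine sum_congr rfl fun p _ => ?_
    rw [Nat.cast_pow, Real.log_pow]
  · intro p hp
    rw [Nat.support_factorization] at hp
    have := (Nat.prime_of_mem_primeFactors hp).pos
    positivity

/-- N2: the size. -/
theorem num_le {a b Q K C M r Y : ℕ} (ha : 0 < a) (hb : 0 < b) (hab : a.Coprime b) (hQ : 0 < Q) (hK : 0 < K)
    (hY : 1 ≤ Y) {n s : Fin (r + 1) → ℕ} (hs : ∀ i, s i ≤ Y) {v : Row r} (hv : IsRow r Q C M n v)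
    (hbox : ∀ i, ∀ p ∈ (a * b).primeFactors, box a b Q K (n i) p = box a b Q K (n 0) p) :
    (|num a b Q K C M r n s v| : ℤ) ≤ Real.exp ((r + 1) * C * Real.log Y + 2 * M * Real.log (a + b : ℕ) +
      (2 * ((r + 1) * C) / K + 2) * Real.log (∏ p ∈ (a * b * (a + b)).primeFactors, p : ℕ)) := by
  have hQ' : (0 : ℝ) < Q := by exact_mod_cast hQ
  have hK' : (0 : ℝ) < K := by exact_mod_cast hK
  have hY' : (1 : ℝ) ≤ Y := by exact_mod_cast hY
  set S := (a * b).primeFactors with hSdef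
  set E : ℕ → ℤ := fun p => expo a b Q K C M r n v p with hE
  have hE0 : ∀ p ∈ S, 0 ≤ E p := fun p hp => expo_nonneg hQ hK hv p fun i => hbox i p hp
  have habs : (|num a b Q K C M r n s v| : ℤ) =
      (((∏ i, s i ^ v.1 i) * ∏ p ∈ S, p ^ (E p).toNat : ℕ) : ℤ) := by
    unfold num
    rw [abs_mul, abs_pow, abs_neg, abs_one, one_pow, one_mul, abs_of_nonneg (by positivity)]
  have hpos : ∀ p ∈ S, 0 < p := fun p hp => (Nat.prime_of_mem_primeFactors hp).pos
  have hlogp : ∀ p ∈ S, 0 ≤ Real.log p := fun p hp =>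
    Real.log_nonneg (by exact_mod_cast hpos p hp)
  -- the product over the `s i`
  have h1 : ((∏ i, s i ^ v.1 i : ℕ) : ℝ) ≤ Real.exp ((r + 1) * C * Real.log Y) := by
    have h2 : ∏ i, s i ^ v.1 i ≤ Y ^ ((r + 1) * C) := by
      calc ∏ i, s i ^ v.1 i ≤ ∏ i, Y ^ v.1 i := prod_le_prod' fun i _ => Nat.pow_le_pow_left (hs i) _
        _ = Y ^ ∑ i, v.1 i := prod_pow_eq_pow_sum _ _ _
        _ = Y ^ ((r + 1) * C) := by rw [hv.1]
    have h3 : ((Y ^ ((r + 1) * C) : ℕ) : ℝ) = Real.exp ((r + 1) * C * Real.log Y) := by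
      have : (Y : ℝ) = Real.exp (Real.log Y) := (Real.exp_log (by linarith)).symm
      rw [Nat.cast_pow]
      conv_lhs => rw [this]
      rw [← Real.exp_nat_mul]
      push_cast
      ring_nf
    rw [← h3]
    exact_mod_cast h2
  -- the product over the primes
  have h4 : ((∏ p ∈ S, p ^ (E p).toNat : ℕ) : ℝ) = Real.exp (∑ p ∈ S, (E p : ℝ) * Real.log p) := by
    rw [Real.exp_sum, Nat.cast_prod]
    refine prod_congr rfl fun p hp => ?_
    have h5 : (0 : ℝ) < p := by exact_mod_cast hpos p hp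
    have h6 : ((E p : ℤ) : ℝ) = ((E p).toNat : ℝ) := by
      have := Int.toNat_of_nonneg (hE0 p hp)
      exact_mod_cast this.symm
    rw [h6, Nat.cast_pow, Real.exp_nat_mul, Real.exp_log h5]
  set t : ℝ := (tq r Q C M n v : ℝ) / Q with ht
  have htM : |t| ≤ M := by
    rw [ht, abs_div, abs_of_pos hQ', div_le_iff₀ hQ']
    have := hv.2
    exact_mod_cast this
  have ha0 : a ≠ 0 := ha.ne'
  have hb0 : b ≠ 0 := hb.ne'
  have hSa : a.primeFactors ⊆ S := Nat.primeFactors_mono (dvd_mul_right a b) (mul_ne_zero ha0 hb0)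
  have hSb : b.primeFactors ⊆ S := Nat.primeFactors_mono (dvd_mul_left b a) (mul_ne_zero ha0 hb0)
  have hla := sum_fact_log ha0 S hSa
  have hlb := sum_fact_log hb0 S hSb
  have hkv : ∀ p, |(kv a b p : ℝ)| = a.factorization p + b.factorization p := by
    intro p
    have h7 : a.factorization p = 0 ∨ b.factorization p = 0 := by
      by_contra hcon
      push Not at hcon
      obtain ⟨h8, h9⟩ := hcon
      have h10 : p ∈ a.primeFactors := by
        rw [← Nat.support_factorization]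
        exact Finsupp.mem_support_iff.mpr h8
      have h11 : p ∈ b.primeFactors := by
        rw [← Nat.support_factorization]
        exact Finsupp.mem_support_iff.mpr h9
      exact (Finset.disjoint_left.mp hab.disjoint_primeFactors) h10 h11
    unfold kv
    push_cast
    rcases h7 with h | h
    · rw [h]
      simp
    · rw [h]
      simp
  have h12 : ∑ p ∈ S, (E p : ℝ) * Real.log p ≤ 2 * M * Real.log (a + b : ℕ) +
      (2 * ((r + 1) * C) / K + 2) * Real.log (∏ p ∈ (a * b * (a + b)).primeFactors, p : ℕ) := by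
    have h13 : ∑ p ∈ S, (E p : ℝ) * Real.log p ≤
        ∑ p ∈ S, (M * |(kv a b p : ℝ)| + kv a b p * t + (2 * ((r + 1) * C) / K + 1)) * Real.log p :=
      sum_le_sum fun p hp => mul_le_mul_of_nonneg_right
        (expo_le hQ hK hv p fun i => hbox i p hp) (hlogp p hp)
    refine h13.trans ?_
    have h14 : ∑ p ∈ S, (M * |(kv a b p : ℝ)| + kv a b p * t + (2 * ((r + 1) * C) / K + 1)) * Real.log p =
        M * (Real.log a + Real.log b) + t * (Real.log a - Real.log b) +
          (2 * ((r + 1) * C) / K + 1) * ∑ p ∈ S, Real.log p := by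
      rw [← hla, ← hlb, ← sum_add_distrib, ← sum_sub_distrib, mul_sum, mul_sum, mul_sum,
        ← sum_add_distrib, ← sum_add_distrib]
      refine sum_congr rfl fun p _ => ?_
      rw [hkv p]
      unfold kv
      push_cast
      ring
    rw [h14]
    have hc : (0 : ℝ) < ((a + b : ℕ) : ℝ) := by exact_mod_cast Nat.add_pos_left ha b
    have hlac : Real.log a ≤ Real.log (a + b : ℕ) :=
      Real.log_le_log (by exact_mod_cast ha) (by exact_mod_cast Nat.le_add_right a b)
    have hlbc : Real.log b ≤ Real.log (a + b : ℕ) :=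
      Real.log_le_log (by exact_mod_cast hb) (by exact_mod_cast Nat.le_add_left b a)
    have h15 : M * (Real.log a + Real.log b) + t * (Real.log a - Real.log b) ≤
        2 * M * Real.log (a + b : ℕ) := by
      have hM0 : (0 : ℝ) ≤ M := Nat.cast_nonneg _
      have h16 := abs_le.mp htM
      rcases le_total (Real.log b) (Real.log a) with h | h
      · have h17 : t * (Real.log a - Real.log b) ≤ M * (Real.log a - Real.log b) :=
          mul_le_mul_of_nonneg_right h16.2 (by linarith)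
        nlinarith
      · have h17 : t * (Real.log a - Real.log b) ≤ M * (Real.log b - Real.log a) := by
          have := mul_le_mul_of_nonneg_right h16.1 (sub_nonneg.mpr h)
          nlinarith
        nlinarith
    have h18 : ∑ p ∈ S, Real.log p ≤ Real.log (∏ p ∈ (a * b * (a + b)).primeFactors, p : ℕ) := by
      have h19 : Real.log (∏ p ∈ S, p : ℕ) = ∑ p ∈ S, Real.log p := by
        rw [Nat.cast_prod, Real.log_prod]
        intro p hp
        have := hpos p hp
        positivity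
      rw [← h19]
      have hsub : S ⊆ (a * b * (a + b)).primeFactors :=
        Nat.primeFactors_mono (dvd_mul_right _ _) (by positivity)
      have h20 : ∏ p ∈ S, p ≤ ∏ p ∈ (a * b * (a + b)).primeFactors, p :=
        Nat.le_of_dvd (prod_pos fun p hp => (Nat.prime_of_mem_primeFactors hp).pos)
          (prod_dvd_prod_of_subset _ _ _ hsub)
      exact Real.log_le_log (by exact_mod_cast prod_pos hpos) (by exact_mod_cast h20)
    have h21 : 0 ≤ Real.log (∏ p ∈ (a * b * (a + b)).primeFactors, p : ℕ) :=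
      (sum_nonneg hlogp).trans h18
    have h22 : (0 : ℝ) ≤ 2 * ((r + 1) * C) / K := by positivity
    have h23 := mul_le_mul_of_nonneg_left h18 (by linarith : (0 : ℝ) ≤ 2 * ((r + 1) * C) / K + 1)
    nlinarith
  have h24 : ((|num a b Q K C M r n s v| : ℤ) : ℝ) =
      ((∏ i, s i ^ v.1 i : ℕ) : ℝ) * ((∏ p ∈ S, p ^ (E p).toNat : ℕ) : ℝ) := by
    rw [habs]
    push_cast
    ring
  rw [h24, h4, add_assoc, Real.exp_add]
  exact mul_le_mul h1 (Real.exp_le_exp.mpr h12) (Real.exp_pos _).le (Real.exp_pos _).le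

end Pool.Agent.Helper44.ZE
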