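import Mathlib

/-!
# ZE: the form with finitely many triples
-/

set_option autoImplicit false

namespace Pool.Agent.Helper44.ZE

open Finset

theorem finite_of (h : ∀ ε : ℝ, 0 < ε → ∃ K : ℝ, 0 < K ∧ ∀ a b : ℕ, 0 < a → 0 < b → a.Coprime b →
      Real.log (a + b : ℕ) ≤ K * ((∏ p ∈ (a * b * (a + b)).primeFactors, p : ℕ) : ℝ) ^ ε) (A : ℝ) :
    {x : ℕ × ℕ | 0 < x.1 ∧ 0 < x.2 ∧ x.1.Coprime x.2 ∧
      ((∏ p ∈ (x.1 * x.2 * (x.1 + x.2)).primeFactors, p : ℕ) : ℝ) ≤ (Real.log (x.1 + x.2 : ℕ)) ^ A}.Finite := by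
  set A' : ℝ := max A 1 with hA'
  have hA1 : 1 ≤ A' := le_max_right _ _
  obtain ⟨K, hK, h⟩ := h (1 / (2 * A')) (by positivity)
  set M : ℕ := ⌈Real.exp (max (K ^ 2) 1)⌉₊ with hM
  refine (((Finset.range (M + 1)) ×ˢ (Finset.range (M + 1))).finite_toSet).subset ?_
  rintro ⟨a, b⟩ ⟨ha, hb, hab, hr⟩
  simp only at ha hb hab hr
  have h1 := h a b ha hb hab
  set R : ℝ := ((∏ p ∈ (a * b * (a + b)).primeFactors, p : ℕ) : ℝ) with hR
  set L : ℝ := Real.log (a + b : ℕ) with hL
  have hc : 0 < a + b := by omega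
  have hLle : L ≤ max (K ^ 2) 1 := by
    rcases le_total L 1 with h2 | h2
    · exact h2.trans (le_max_right _ _)
    · refine le_trans ?_ (le_max_left _ _)
      have hL0 : 0 < L := by linarith
      have hR0 : 0 ≤ R := by rw [hR]; positivity
      have h3 : R ≤ L ^ A' := hr.trans (Real.rpow_le_rpow_of_exponent_le h2 (le_max_left _ _))
      have h4 : R ^ (1 / (2 * A')) ≤ Real.sqrt L := by
        calc R ^ (1 / (2 * A')) ≤ (L ^ A') ^ (1 / (2 * A')) := Real.rpow_le_rpow hR0 h3 (by positivity)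
          _ = L ^ (1 / 2 : ℝ) := by
            rw [← Real.rpow_mul hL0.le]
            congr 1
            field_simp
          _ = Real.sqrt L := (Real.sqrt_eq_rpow L).symm
      have h5 : L ≤ K * Real.sqrt L := h1.trans (mul_le_mul_of_nonneg_left h4 hK.le)
      have h6 : Real.sqrt L * Real.sqrt L = L := Real.mul_self_sqrt hL0.le
      have h7 : 0 < Real.sqrt L := Real.sqrt_pos.2 hL0
      have h8 : Real.sqrt L ≤ K := by
        by_contra h9
        push Not at h9
        nlinarith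
      calc L = Real.sqrt L * Real.sqrt L := h6.symm
        _ ≤ K * K := mul_le_mul h8 h8 h7.le hK.le
        _ = K ^ 2 := by ring
  have hcM : a + b ≤ M := by
    have h2 : ((a + b : ℕ) : ℝ) ≤ Real.exp (max (K ^ 2) 1) := by
      have hc' : (0 : ℝ) < ((a + b : ℕ) : ℝ) := by exact_mod_cast hc
      rw [← Real.log_le_iff_le_exp hc']
      exact hLle
    have h3 := h2.trans (Nat.le_ceil _)
    exact_mod_cast h3
  simp only [Finset.coe_product, Finset.coe_range, Set.mem_prod, Set.mem_Iio]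
  constructor <;> omega

end Pool.Agent.Helper44.ZE
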